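import Pool.Agent.Run7.h277.FL.Ext
import Pool.Agent.N762.FP.Itg

/-!
MP_b525bf_ag: resolution of singularities, in all dimensions and in all characteristics `p > 0`, of
the projective varieties over a perfect field `k`, and of their open subsets, whose function fields
`K` are generated by Artin-Schreier roots, or by `p`-th roots, over a field `K_0` of the following
kind.

`K_0` is generated by linearly disjoint function fields `E 1, ..., E m` of arbitrary surfaces over
`k`, by elements `z 1, ..., z s` with arbitrary linear relations over `k` between `1` and the powers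
`z t ^ (p ^ e t)`, with arbitrary exponents `e t ≥ 0`, and by elements `x 1, ..., x n` which satisfy
equations `G i (u, z, x) = 0`, where `u 1, ..., u h` are products of elements of the `E i` and the
`G i` are Laurent polynomials which are schön with respect to `x`. There are no other relations. The
elements adjoined to `K_0` are the roots of `w j ^ p - w j = y j` with integral linear combinations
`y j` of arbitrary functions `f i ∈ E i` (with arbitrary poles) and of nondegenerate Laurent
polynomials `F t (u, z, x)`, or the roots of `w j ^ p = y j`, with linear combinations `y j` over `k` of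
products `g t 1 * ... * g t m`, `g t i ∈ E i`, where for each `i` at most one of the `g t i` is not a
`p`-th power, and of the `F t (u, z, x)`.

The homogeneous coordinates of the variety (or of a projective space to which it has a finite
morphism) are roots of monomials: products of powers of the elements of the `E i`, of the `x j` and of
linear combinations over `k` of `1` and of powers `z t ^ (p ^ (e t - f))`, `e t ≥ f`, for `f ≥ 0`.

Examples. Let `S 1, ..., S m` be surfaces over `k` and let the `v j` be products of nonzero rational
functions on the `S i`.

* The components, not contained in a coordinate hyperplane and dominating `S 1 × ... × S m`, of the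
  scheme over `S 1 × ... × S m` which is given by a system of equations
  `∑ j, c i j * (v j * x j ^ (d j)) ^ (q j) = b i`, where `c i j, b i ∈ k`, the `q j` are arbitrary
  powers of `p` and the `d j` are prime to `p` (here `z j = v j * x j ^ (d j)`); for instance
  `y ^ 4 + v ^ 2 * x ^ 6 + v' * t ^ 5 = 1` in characteristic `2`.

* The coverings of such a variety, times a torus with the coordinates `y 1, ..., y r`, which are given
  by equations `w ^ p - w = f 1 + ... + f m + ∑ j, a j * y j ^ (r j)`, or
  `w ^ p = f 1 + ... + f m + ∑ j, a j * y j ^ (r j)`, where the `f i` are arbitrary rational functions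
  on the `S i`, `a j ∈ k` is not zero and `p ∤ r j`.

The proof: (1) the system of the powers is saturated by finitely many roots, and the given linear
forms are added; the new system is schön (the theorems on leading terms of linear relations with
levels in the starting files, project FL of helper102: helpers 102, 40, 56, 456, 531, 608, 954);
(2) the theorems of helper214 and helper188 on coverings of schön systems over products of surfaces
(`wild_models`, `insep_models`); (3) the theorem of helper762 on forms which are boundary functions on
a model. The starting files mention a hand-in `FrobeniusLevels` on this problem (about affine varieties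
which are integral over the ring generated by products of elements of the `E i` and of powers of the
`z t` and `x j`), but do not contain it; part (1) without linear forms is their file
`Pool.Agent.N102.FL.Final`.
-/

set_option autoImplicit false

open AlgebraicGeometry CategoryTheory Pool.Agent.W558 Pool.Agent.TH214.SD Pool.Agent.N102.FL

namespace Pool.Agent.Results.MP_b525bf_ag.FrobeniusLevels

/-- The group of monomials: the subgroup of `Kˣ` which is generated by the nonzero elements of the
`E i`, by the `x j`, and by the nonzero linear combinations, with coefficients in `k`, of `1` and of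
powers `z t ^ (p ^ (e t - f))` with `e t ≥ f`, for all `f ≥ 0` (for example, by the `z t`). -/
def monomials {k K : Type} [Field k] [Field K] [Algebra k K] {m s n : ℕ}
    (E : Fin m → IntermediateField k K) (p : ℕ) (e : Fin s → ℕ) (z : Fin s → K) (x : Fin n → K) :
    Subgroup Kˣ :=
  Subgroup.closure {u | (∃ i, (u : K) ∈ E i) ∨ (∃ j, (u : K) = x j) ∨ IsLinearForm k p e z (u : K)}

/-- The homomorphism `ξ` is a homogeneous generic point of the projective variety `Proj S` over
`k`, where `S = ⨁ 𝒜 t`, and `K` is the function field: `ξ` is injective on the homogeneous parts of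
`S`, and the elements of `K` are the quotients of the values at `ξ` of homogeneous elements of `S`
of the same degree. -/
structure IsGenericPoint {k S K : Type} [Field k] [CommRing S] [Algebra k S]
    (𝒜 : ℕ → Submodule k S) [Field K] [Algebra k K] (ξ : S →ₐ[k] K) : Prop where
  injective : ∀ n, ∀ s ∈ 𝒜 n, ξ s = 0 → s = 0
  fractions : ∀ z : K, ∃ n, ∃ s ∈ 𝒜 n, ∃ t ∈ 𝒜 n, ξ t ≠ 0 ∧ z = ξ s / ξ t

/-- Let `k` be a perfect field of characteristic `p`. Let `K` be the function field of a covering of
a leveled system over a product of surfaces (`IsLeveledSystem`, `IsGeneratedBy`). Let `X = Proj S` be a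
projective variety over `k` with function field `K`, where `S` is a graded domain generated over `k`
by its finite dimensional part `𝒜 1` of degree one. Let `b 1, ..., b l` be elements of `𝒜 1` without
common zeros on `X` (all forms of some degree `d + 1` are in the ideal generated by them), such that
each nonzero value `ξ (b i)` at the homogeneous generic point of `X` has a power which is a monomial.
(In other words: `X` has a finite morphism to a projective space whose homogeneous coordinates are
roots of monomials.) Then each nonempty open subscheme `U` of `X` has a resolution of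
singularities. -/
theorem result (p : ℕ) [Fact p.Prime] (k K : Type) [Field k] [PerfectField k] [CharP k p]
    [Field K] [Algebra k K] {m h s n q r o a c : ℕ} (E : Fin m → IntermediateField k K)
    (u : Fin h → K) (e : Fin s → ℕ) (z : Fin s → K) (x : Fin n → K)
    (G : Fin q → (Fin (h + s) ⊕ Fin n → ℤ) →₀ k) (hB : IsLeveledSystem E p c u e z x G)
    (f : ∀ i, E i) (g : Fin o → ∀ i, E i) (F : Fin a → (Fin (h + s) ⊕ Fin n → ℤ) →₀ k)
    (w : Fin r → K) (hC : IsGeneratedBy E p u z x G f g F w)
    (S : Type) [CommRing S] [IsDomain S] [Algebra k S] (𝒜 : ℕ → Submodule k S) [GradedAlgebra 𝒜]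
    (hS : Algebra.adjoin k (𝒜 1 : Set S) = ⊤) (hS1 : 𝒜 1 ≠ ⊥) (hfg : (𝒜 1).FG)
    (ξ : S →ₐ[k] K) (hξ : IsGenericPoint 𝒜 ξ)
    (l : ℕ) (b : Fin l → S) (hb : ∀ i, b i ∈ 𝒜 1)
    (hb' : ∃ d : ℕ, ∀ s ∈ 𝒜 (d + 1), s ∈ Ideal.span (Set.range b))
    (hbP : ∀ i, ξ (b i) ≠ 0 → ∃ N : ℕ, N ≠ 0 ∧ ∃ v ∈ monomials E p e z x, (v : K) = ξ (b i) ^ N)
    (U : (Proj 𝒜).Opens) (hU : (U : Set (Proj 𝒜)).Nonempty) :
    IsResolvableVariety (k := k) (X := U.toScheme)
      (U.ι ≫ Proj.toSpecZero 𝒜 ≫ Spec.map (CommRingCat.ofHom (algebraMap k (𝒜 0)))) := by
  classical
  obtain ⟨d, hd⟩ := hb'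
  have key : ∀ v ∈ monomials E p e z x, ∃ (l : ℕ) (a : Fin l → K) (η : Fin l → ℤ),
      (∀ i, a i ∈ {y | IsProduct E (Fin.append z x) y} ∪ {y | IsLinearForm k p e z y}) ∧
        (v : K) = ∏ i, a i ^ η i := by
    intro v hv
    induction hv using Subgroup.closure_induction with
    | mem v hv =>
      refine ⟨1, fun _ => (v : K), fun _ => 1, fun _ => ?_, by simp⟩
      rcases hv with ⟨i, hi⟩ | ⟨j, hj⟩ | hv
      · refine Or.inl ⟨Function.update (fun _ => 1) i ⟨(v : K), hi⟩, 0, ?_, ?_⟩
        · intro i'
          by_cases h : i' = i
          · subst h
            rw [Function.update_self]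
            intro h0
            exact v.ne_zero (congrArg Subtype.val h0)
          · rw [Function.update_of_ne h]
            exact one_ne_zero
        · rw [Finset.prod_eq_single i]
          · simp
          · intro i' _ h
            rw [Function.update_of_ne h]
            rfl
          · intro h
            exact absurd (Finset.mem_univ _) h
      · refine Or.inl ⟨fun _ => 1, Pi.single (Fin.natAdd s j) 1, fun _ => one_ne_zero, ?_⟩
        rw [Finset.prod_eq_single (Fin.natAdd s j)]
        · simp [hj]
        · intro j' _ h
          rw [Pi.single_eq_of_ne h, zpow_zero]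
        · intro h
          exact absurd (Finset.mem_univ _) h
      · exact Or.inr hv
    | one => exact ⟨0, fun i => i.elim0, fun i => i.elim0, fun i => i.elim0, by simp⟩
    | mul v v' _ _ hv hv' =>
      obtain ⟨l, a, η, h1, h2⟩ := hv
      obtain ⟨l', a', η', h1', h2'⟩ := hv'
      refine ⟨l + l', Fin.append a a', Fin.append η η', ?_, ?_⟩
      · intro i
        induction i using Fin.addCases with
        | left i => rw [Fin.append_left]; exact h1 i
        | right i => rw [Fin.append_right]; exact h1' i
      · rw [Units.val_mul, h2, h2', Fin.prod_univ_add]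
        simp only [Fin.append_left, Fin.append_right]
    | inv v _ hv =>
      obtain ⟨l, a, η, h1, h2⟩ := hv
      refine ⟨l, a, fun i => - η i, h1, ?_⟩
      rw [Units.val_inv_eq_inv_val, h2]
      simp only [zpow_neg, Finset.prod_inv_distrib]
  have hmod := Pool.Agent.N762.FP.mod_sat (Q := {y | y ≠ 0 → ∃ N : ℕ, N ≠ 0 ∧
      ∃ v ∈ monomials E p e z x, (v : K) = y ^ N}) (Run7.h277.FL.mod_leveled hB hC) (by
    intro y hy hy0
    obtain ⟨N, hN, v, hv, hvy⟩ := hy hy0
    obtain ⟨l, a, η, h1, h2⟩ := key v hv
    exact ⟨N, hN, 1, l, a, η, h1, by rw [map_one, one_mul, ← hvy, h2]⟩)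
  obtain ⟨T, I, hT, hI, M, hFr, hM⟩ := hmod
    {i : Fin l // ξ (b i) ≠ 0} (fun i => ξ (b i.1)) (fun i => hbP i.1) (fun i => i.2)
  exact Pool.Agent.N762.FP.isResolvable_of_forms 𝒜 hS hfg ξ hξ.injective hξ.fractions b hb hd M hFr
    (fun i hi => hM ⟨i, hi⟩) hS1 U hU

end Pool.Agent.Results.MP_b525bf_ag.FrobeniusLevels
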